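import Mathlib

/-!
Basic estimates used for the extension theorem: the smooth convex function
`Q v = sqrt (1 + ‖v‖^2)`, its Bregman lower bound, and exponential sums over the
lattice `n^(-1/2) ℤ^n`.
-/

set_option autoImplicit false

open scoped BigOperators

namespace Pool.Agent.MPe08f0b

noncomputable section

/-- Euclidean space of dimension `n`. -/
abbrev V (n : ℕ) := EuclideanSpace ℝ (Fin n)

/-- The function `sqrt (1 + ‖v‖^2)`. -/
def Q {n : ℕ} (v : V n) : ℝ := Real.sqrt (1 + ‖v‖ ^ 2)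

lemma Q_sq {n : ℕ} (v : V n) : Q v ^ 2 = 1 + ‖v‖ ^ 2 := by
  unfold Q
  rw [Real.sq_sqrt]
  positivity

lemma one_le_Q {n : ℕ} (v : V n) : 1 ≤ Q v := by
  unfold Q
  rw [Real.one_le_sqrt]
  nlinarith [sq_nonneg ‖v‖]

lemma Q_pos {n : ℕ} (v : V n) : 0 < Q v := lt_of_lt_of_le one_pos (one_le_Q v)

lemma norm_le_Q {n : ℕ} (v : V n) : ‖v‖ ≤ Q v := by
  unfold Q
  apply Real.le_sqrt_of_sq_le
  linarith

lemma Q_le {n : ℕ} (v : V n) : Q v ≤ 1 + ‖v‖ := by
  unfold Q
  rw [Real.sqrt_le_left (by positivity)]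
  nlinarith [norm_nonneg v]

lemma continuous_Q {n : ℕ} : Continuous (Q : V n → ℝ) := by
  unfold Q
  fun_prop

/-- Bregman lower bound for `Q`. -/
lemma bregman {n : ℕ} (v w : V n) :
    Q v + inner ℝ v (w - v) / Q v + ‖v - w‖ ^ 2 / (2 * Q w * Q v ^ 2) ≤ Q w := by
  have hq := Q_pos v
  have hp := Q_pos w
  have hq2 := Q_sq v
  have hp2 := Q_sq w
  have h1 : inner ℝ v (w - v) = inner ℝ v w - ‖v‖ ^ 2 := by
    rw [inner_sub_right, real_inner_self_eq_norm_sq]
  have h2 : ‖v - w‖ ^ 2 = ‖v‖ ^ 2 - 2 * inner ℝ v w + ‖w‖ ^ 2 := norm_sub_sq_real v w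
  have hcs : (inner ℝ v w : ℝ) ^ 2 ≤ ‖v‖ ^ 2 * ‖w‖ ^ 2 := by
    have := abs_real_inner_le_norm v w
    have h3 : |(inner ℝ v w : ℝ)| ^ 2 ≤ (‖v‖ * ‖w‖) ^ 2 :=
      pow_le_pow_left₀ (abs_nonneg _) this 2
    rw [sq_abs, mul_pow] at h3
    exact h3
  set s : ℝ := inner ℝ v w with hs
  set p := Q w
  set q := Q v
  -- key: (pq)^2 ≥ (1+s)^2 + ‖v-w‖^2
  have key : (1 + s) ^ 2 + ‖v - w‖ ^ 2 ≤ (p * q) ^ 2 := by
    rw [mul_pow, hp2, hq2, h2]
    nlinarith
  have hpq : 0 < p * q := mul_pos hp hq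
  have h1s : 1 + s ≤ p * q := by
    nlinarith [sq_nonneg ‖v - w‖, abs_le_of_sq_le_sq' (show (1 + s) ^ 2 ≤ (p * q) ^ 2 by
      nlinarith [sq_nonneg ‖v - w‖]) hpq.le]
  have hmain : ‖v - w‖ ^ 2 / (2 * p * q) ≤ p * q - 1 - s := by
    rw [div_le_iff₀ (by positivity)]
    have : ‖v - w‖ ^ 2 ≤ (p * q - (1 + s)) * (p * q + (1 + s)) := by nlinarith
    have h5 : (p * q - (1 + s)) * (p * q + (1 + s)) ≤ (p * q - 1 - s) * (2 * p * q) := by
      have : 0 ≤ p * q - (1 + s) := by linarith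
      nlinarith
    linarith
  have e1 : q + (s - ‖v‖ ^ 2) / q + ‖v - w‖ ^ 2 / (2 * p * q ^ 2)
      = (q ^ 2 + s - ‖v‖ ^ 2 + ‖v - w‖ ^ 2 / (2 * p * q)) / q := by
    field_simp
    ring
  rw [h1, e1, div_le_iff₀ hq]
  rw [hq2]
  linarith

/-- the points of the lattice `n^(-1/2) ℤ^n` -/
def emb {n : ℕ} (k : Fin n → ℤ) : V n := WithLp.toLp 2 (fun i => (k i : ℝ) / Real.sqrt n)

lemma emb_apply {n : ℕ} (k : Fin n → ℤ) (i : Fin n) : emb k i = (k i : ℝ) / Real.sqrt n := rfl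

/-- rounding down to the lattice -/
def rnd {n : ℕ} (v : V n) : Fin n → ℤ := fun i => ⌊Real.sqrt n * v i⌋

lemma norm_emb_rnd_sub_le {n : ℕ} (hn : 1 ≤ n) (v : V n) : ‖emb (rnd v) - v‖ ≤ 1 := by
  have hn' : (0 : ℝ) < n := by exact_mod_cast hn
  have hs : 0 < Real.sqrt n := Real.sqrt_pos.mpr hn'
  have h : ‖emb (rnd v) - v‖ ^ 2 ≤ 1 := by
    rw [EuclideanSpace.norm_sq_eq]
    calc ∑ i, ‖(emb (rnd v) - v) i‖ ^ 2 ≤ ∑ _i : Fin n, (1 / (n : ℝ)) := by
          apply Finset.sum_le_sum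
          intro i _
          have e : (emb (rnd v) - v) i = ((⌊Real.sqrt n * v i⌋ : ℝ) - Real.sqrt n * v i) / Real.sqrt n := by
            show emb (rnd v) i - v i = _
            rw [emb_apply]
            unfold rnd
            field_simp
          rw [e, norm_div, div_pow, Real.norm_eq_abs, Real.norm_eq_abs, sq_abs, sq_abs,
            Real.sq_sqrt hn'.le]
          apply div_le_div_of_nonneg_right _ hn'.le
          have h1 := Int.floor_le (Real.sqrt n * v i)
          have h2 := Int.lt_floor_add_one (Real.sqrt n * v i)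
          nlinarith
      _ = 1 := by
          rw [Finset.sum_const, Finset.card_univ, Fintype.card_fin, nsmul_eq_mul]
          field_simp
  exact abs_le_one_iff_mul_self_le_one.mpr (by nlinarith) |>.trans' (le_abs_self _)

/-- One-dimensional sums. -/
lemma sum_exp_int_le (S : Finset ℤ) (b : ℝ) {B : ℝ} (hB : 0 < B) :
    ∑ j ∈ S, Real.exp (-(B * |(j : ℝ) - b|)) ≤ 2 / (1 - Real.exp (-B)) := by
  have hr0 : 0 ≤ Real.exp (-B) := (Real.exp_pos _).le
  have hr1 : Real.exp (-B) < 1 := by rw [Real.exp_lt_one_iff]; linarith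
  have hsum : Summable (fun m : ℕ => Real.exp (-B) ^ m) := summable_geometric_of_lt_one hr0 hr1
  have htsum : ∑' m : ℕ, Real.exp (-B) ^ m = (1 - Real.exp (-B))⁻¹ :=
    tsum_geometric_of_lt_one hr0 hr1
  have hsplit := Finset.sum_filter_add_sum_filter_not S (fun j : ℤ => ⌈b⌉ ≤ j)
    (fun j : ℤ => Real.exp (-(B * |(j : ℝ) - b|)))
  rw [← hsplit]
  have h1 : ∑ j ∈ S.filter (fun j : ℤ => ⌈b⌉ ≤ j), Real.exp (-(B * |(j : ℝ) - b|))
      ≤ (1 - Real.exp (-B))⁻¹ := by
    rw [← htsum]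
    calc ∑ j ∈ S.filter (fun j : ℤ => ⌈b⌉ ≤ j), Real.exp (-(B * |(j : ℝ) - b|))
        ≤ ∑ j ∈ S.filter (fun j : ℤ => ⌈b⌉ ≤ j), Real.exp (-B) ^ (j - ⌈b⌉).toNat := by
          apply Finset.sum_le_sum
          intro j hj
          rw [Finset.mem_filter] at hj
          rw [← Real.exp_nat_mul]
          apply Real.exp_le_exp.mpr
          have h3 : ((j - ⌈b⌉).toNat : ℝ) = (j : ℝ) - (⌈b⌉ : ℝ) := by
            have : ((j - ⌈b⌉).toNat : ℤ) = j - ⌈b⌉ := Int.toNat_of_nonneg (by omega)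
            exact_mod_cast this
          rw [h3]
          have h4 : b ≤ (⌈b⌉ : ℝ) := Int.le_ceil b
          have h5 : (⌈b⌉ : ℝ) ≤ j := by exact_mod_cast hj.2
          have h6 : (j : ℝ) - ⌈b⌉ ≤ |(j : ℝ) - b| := by
            rw [abs_of_nonneg (by linarith)]; linarith
          nlinarith
      _ = ∑ m ∈ (S.filter (fun j : ℤ => ⌈b⌉ ≤ j)).image (fun j => (j - ⌈b⌉).toNat),
            Real.exp (-B) ^ m := by
          rw [Finset.sum_image]
          intro x hx y hy hxy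
          rw [Finset.mem_coe, Finset.mem_filter] at hx hy
          simp only at hxy
          omega
      _ ≤ ∑' m : ℕ, Real.exp (-B) ^ m := by
          apply hsum.sum_le_tsum
          intro m _
          positivity
  have h2 : ∑ j ∈ S.filter (fun j : ℤ => ¬ ⌈b⌉ ≤ j), Real.exp (-(B * |(j : ℝ) - b|))
      ≤ (1 - Real.exp (-B))⁻¹ := by
    rw [← htsum]
    calc ∑ j ∈ S.filter (fun j : ℤ => ¬ ⌈b⌉ ≤ j), Real.exp (-(B * |(j : ℝ) - b|))
        ≤ ∑ j ∈ S.filter (fun j : ℤ => ¬ ⌈b⌉ ≤ j), Real.exp (-B) ^ (⌈b⌉ - 1 - j).toNat := by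
          apply Finset.sum_le_sum
          intro j hj
          rw [Finset.mem_filter] at hj
          rw [← Real.exp_nat_mul]
          apply Real.exp_le_exp.mpr
          have h3 : ((⌈b⌉ - 1 - j).toNat : ℝ) = (⌈b⌉ : ℝ) - 1 - (j : ℝ) := by
            have : ((⌈b⌉ - 1 - j).toNat : ℤ) = ⌈b⌉ - 1 - j := Int.toNat_of_nonneg (by omega)
            exact_mod_cast this
          rw [h3]
          have h4 : (⌈b⌉ : ℝ) < b + 1 := Int.ceil_lt_add_one b
          have h5 : (j : ℝ) ≤ ⌈b⌉ - 1 := by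
            have : j ≤ ⌈b⌉ - 1 := by omega
            exact_mod_cast this
          have h6 : (⌈b⌉ : ℝ) - 1 - j ≤ |(j : ℝ) - b| := by
            rw [abs_of_nonpos (by linarith)]; linarith
          nlinarith
      _ = ∑ m ∈ (S.filter (fun j : ℤ => ¬ ⌈b⌉ ≤ j)).image (fun j => (⌈b⌉ - 1 - j).toNat),
            Real.exp (-B) ^ m := by
          rw [Finset.sum_image]
          intro x hx y hy hxy
          rw [Finset.mem_coe, Finset.mem_filter] at hx hy
          simp only at hxy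
          omega
      _ ≤ ∑' m : ℕ, Real.exp (-B) ^ m := by
          apply hsum.sum_le_tsum
          intro m _
          positivity
  rw [div_eq_mul_inv]
  linarith

lemma sum_exp_int_le' (S : Finset ℤ) (b : ℝ) {B : ℝ} (hB : 1 ≤ B) :
    ∑ j ∈ S, Real.exp (-(B * |(j : ℝ) - b|)) ≤ Real.exp 2 := by
  refine (sum_exp_int_le S b (by linarith)).trans ?_
  have h1 : Real.exp (-B) ≤ 1 / 2 := by
    calc Real.exp (-B) ≤ Real.exp (-1) := Real.exp_le_exp.mpr (by linarith)
      _ ≤ 1 / 2 := by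
        rw [Real.exp_neg, one_div]
        apply inv_anti₀ (by norm_num)
        have := Real.add_one_le_exp (1 : ℝ)
        linarith
  have h2 : 2 / (1 - Real.exp (-B)) ≤ 4 := by
    rw [div_le_iff₀ (by linarith)]
    linarith
  have h3 : (4 : ℝ) ≤ Real.exp 2 := by
    have h := Real.add_one_le_exp (1 : ℝ)
    have : Real.exp 2 = Real.exp 1 * Real.exp 1 := by
      rw [← Real.exp_add]; norm_num
    rw [this]
    nlinarith
  linarith

/-- `n ‖v‖` dominates `√n` times the `ℓ_1`-norm. -/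
lemma sqrt_mul_sum_le {n : ℕ} (v : V n) : Real.sqrt n * ∑ i, |v i| ≤ n * ‖v‖ := by
  have h1 : (∑ i, |v i|) ^ 2 ≤ n * ‖v‖ ^ 2 := by
    have := Finset.sum_mul_sq_le_sq_mul_sq Finset.univ (fun _ : Fin n => (1 : ℝ)) (fun i => |v i|)
    simp only [one_mul, one_pow, Finset.sum_const, Finset.card_univ, Fintype.card_fin,
      nsmul_eq_mul, mul_one, sq_abs] at this
    rw [EuclideanSpace.norm_sq_eq]
    simpa using this
  have h2 : ∑ i, |v i| ≤ Real.sqrt n * ‖v‖ := by
    apply le_of_sq_le_sq _ (by positivity)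
    rw [mul_pow, Real.sq_sqrt (by positivity)]
    exact h1
  calc Real.sqrt n * ∑ i, |v i| ≤ Real.sqrt n * (Real.sqrt n * ‖v‖) :=
        mul_le_mul_of_nonneg_left h2 (Real.sqrt_nonneg _)
    _ = n * ‖v‖ := by rw [← mul_assoc, Real.mul_self_sqrt (by positivity)]

/-- Sum over lattice points. -/
lemma sum_exp_lattice_le {n : ℕ} (hn : 1 ≤ n) (K : Finset (Fin n → ℤ)) (a : V n) {B : ℝ}
    (hB : 1 ≤ B) :
    ∑ k ∈ K, Real.exp (-(n * B * ‖emb k - a‖)) ≤ Real.exp (2 * n) := by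
  classical
  have hn' : (0 : ℝ) < n := by exact_mod_cast hn
  have hs : 0 < Real.sqrt n := Real.sqrt_pos.mpr hn'
  -- bound each term by a product
  have h1 : ∀ k : Fin n → ℤ, Real.exp (-(n * B * ‖emb k - a‖)) ≤
      ∏ i, Real.exp (-(B * |(k i : ℝ) - Real.sqrt n * a i|)) := by
    intro k
    rw [← Real.exp_sum]
    apply Real.exp_le_exp.mpr
    rw [Finset.sum_neg_distrib]
    apply neg_le_neg
    rw [← Finset.mul_sum]
    have h2 := sqrt_mul_sum_le (emb k - a)
    have h3 : ∑ i, |(k i : ℝ) - Real.sqrt n * a i| = Real.sqrt n * ∑ i, |(emb k - a) i| := by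
      rw [Finset.mul_sum]
      apply Finset.sum_congr rfl
      intro i _
      have : (k i : ℝ) - Real.sqrt n * a i = Real.sqrt n * (emb k - a) i := by
        show _ = Real.sqrt n * (emb k i - a i)
        rw [emb_apply]
        field_simp
      rw [this, abs_mul, abs_of_pos hs]
    rw [h3]
    calc B * (Real.sqrt n * ∑ i, |(emb k - a) i|) ≤ B * (n * ‖emb k - a‖) :=
          mul_le_mul_of_nonneg_left h2 (by linarith)
      _ = n * B * ‖emb k - a‖ := by ring
  calc ∑ k ∈ K, Real.exp (-(n * B * ‖emb k - a‖))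
      ≤ ∑ k ∈ K, ∏ i, Real.exp (-(B * |(k i : ℝ) - Real.sqrt n * a i|)) :=
        Finset.sum_le_sum (fun k _ => h1 k)
    _ ≤ ∑ k ∈ Fintype.piFinset (fun i : Fin n => K.image (fun k : Fin n → ℤ => k i)),
          ∏ i, Real.exp (-(B * |(k i : ℝ) - Real.sqrt n * a i|)) := by
        apply Finset.sum_le_sum_of_subset_of_nonneg
        · intro k hk
          rw [Fintype.mem_piFinset]
          intro i
          exact Finset.mem_image_of_mem (fun k : Fin n → ℤ => k i) hk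
        · intro k _ _
          exact Finset.prod_nonneg (fun i _ => (Real.exp_pos _).le)
    _ = ∏ i : Fin n, ∑ j ∈ K.image (fun k : Fin n → ℤ => k i),
          Real.exp (-(B * |(j : ℝ) - Real.sqrt n * a i|)) := by
        rw [Finset.prod_univ_sum]
    _ ≤ ∏ _i : Fin n, Real.exp 2 := by
        apply Finset.prod_le_prod
        · intro i _
          exact Finset.sum_nonneg (fun j _ => (Real.exp_pos _).le)
        · intro i _
          exact sum_exp_int_le' _ _ hB
    _ = Real.exp (2 * n) := by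
        rw [Finset.prod_const, Finset.card_univ, Fintype.card_fin, ← Real.exp_nat_mul]
        ring_nf

end

end Pool.Agent.MPe08f0b
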