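import Pool.Agent.Lib.MP_e08f0b_an.MultiScale

/-!
Passage from finite sets `E` to arbitrary sets `E`.
-/

set_option autoImplicit false

open scoped BigOperators
open Filter Topology

namespace Pool.Agent.MPe08f0b

noncomputable section

theorem extension_bound {n : ℕ} (hn : 1 ≤ n) {α : ℝ} (hα : 1 / 2 ≤ α) (hα1 : α ≤ 1)
    {M : Type*} [MetricSpace M] (E : Set M) (φ : M → V n)
    (hφ : ∀ x ∈ E, ∀ y ∈ E, ‖φ x - φ y‖ ≤ dist x y ^ α) :
    ∃ ψ : M → V n, (∀ x ∈ E, ψ x = φ x) ∧
      ∀ x y : M, ‖ψ x - ψ y‖ ≤ 5000 * ((n : ℝ) ^ (α - 1 / 2) * dist x y ^ α) := by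
  classical
  rcases E.eq_empty_or_nonempty with hE | ⟨x1, hx1⟩
  · refine ⟨fun _ => 0, ?_, ?_⟩
    · intro x hx
      rw [hE] at hx
      exact absurd hx (Set.notMem_empty x)
    · intro x y
      simp only [sub_self, norm_zero]
      positivity
  -- the finite approximations
  let S : Finset E → Finset M := fun s => insert x1 (s.image (fun x : E => (x : M)))
  have hS : ∀ s, (S s).Nonempty := fun s => Finset.insert_nonempty _ _
  have hSE : ∀ s, ∀ x ∈ S s, x ∈ E := by
    intro s x hx
    rcases Finset.mem_insert.mp hx with h | h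
    · rw [h]; exact hx1
    · obtain ⟨y, _, hy⟩ := Finset.mem_image.mp h
      rw [← hy]; exact y.2
  let ψs : Finset E → M → V n := fun s => ext (S s) (hS s) φ α
  have hψs : ∀ s, ∀ z z' : M, ‖ψs s z - ψs s z'‖ ≤
      5000 * ((n : ℝ) ^ (α - 1 / 2) * dist z z' ^ α) := by
    intro s z z'
    exact ext_holder (hS s) hn hα hα1
      (fun x hx y hy => hφ x (hSE s x hx) y (hSE s y hy)) z z'
  have hmem : ∀ s, ∀ z ∈ S s, ψs s z = φ z := fun s z hz => ext_of_mem (hS s) hz
  have hx1S : ∀ s, x1 ∈ S s := fun s => Finset.mem_insert_self _ _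
  let U : Ultrafilter (Finset E) := Ultrafilter.of atTop
  have hU : (U : Filter (Finset E)) ≤ atTop := Ultrafilter.of_le _
  have hlim : ∀ z : M, ∃ y : V n, Tendsto (fun s => ψs s z) (U : Filter (Finset E)) (𝓝 y) := by
    intro z
    have hc : IsCompact (Metric.closedBall (φ x1)
        (5000 * ((n : ℝ) ^ (α - 1 / 2) * dist z x1 ^ α))) := isCompact_closedBall _ _
    have hle : ((U.map (fun s => ψs s z) : Ultrafilter (V n)) : Filter (V n)) ≤
        𝓟 (Metric.closedBall (φ x1) (5000 * ((n : ℝ) ^ (α - 1 / 2) * dist z x1 ^ α))) := by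
      rw [le_principal_iff]
      apply Filter.mem_map.mpr
      apply Filter.univ_mem'
      intro s
      show ψs s z ∈ Metric.closedBall _ _
      rw [Metric.mem_closedBall, dist_eq_norm]
      have := hψs s z x1
      rwa [hmem s x1 (hx1S s)] at this
    obtain ⟨y, _, hy⟩ := hc.ultrafilter_le_nhds _ hle
    exact ⟨y, hy⟩
  choose ψ hψ using hlim
  refine ⟨ψ, ?_, ?_⟩
  · intro x hx
    have hev : ∀ᶠ s in (U : Filter (Finset E)), ψs s x = φ x := by
      apply hU
      filter_upwards [eventually_ge_atTop ({⟨x, hx⟩} : Finset E)] with s hs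
      apply hmem
      apply Finset.mem_insert_of_mem
      apply Finset.mem_image.mpr
      exact ⟨⟨x, hx⟩, hs (Finset.mem_singleton_self _), rfl⟩
    have h1 : Tendsto (fun s => ψs s x) (U : Filter (Finset E)) (𝓝 (φ x)) := by
      apply tendsto_const_nhds.congr'
      filter_upwards [hev] with s hs
      exact hs.symm
    exact tendsto_nhds_unique (hψ x) h1
  · intro x y
    have h1 : Tendsto (fun s => ‖ψs s x - ψs s y‖) (U : Filter (Finset E)) (𝓝 ‖ψ x - ψ y‖) :=
      ((hψ x).sub (hψ y)).norm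
    exact le_of_tendsto h1 (Eventually.of_forall (fun s => hψs s x y))

end

end Pool.Agent.MPe08f0b
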