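import Pool.Agent.Lib.MP_e08f0b_an.Basic

/-!
The one-scale construction: a stable entropic centre.
-/

set_option autoImplicit false

open scoped BigOperators
open Filter Topology

namespace Pool.Agent.MPe08f0b

noncomputable section

variable {n : ℕ} {X : Type*} [Fintype X] [Nonempty X]

/-- cost of the point `y` -/
def D (a : X → V n) (h : X → ℝ) (y : V n) : ℝ :=
  Finset.univ.inf' Finset.univ_nonempty (fun x => h x + ‖y - a x‖)

lemma D_le (a : X → V n) (h : X → ℝ) (y : V n) (x : X) : D a h y ≤ h x + ‖y - a x‖ :=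
  Finset.inf'_le _ (Finset.mem_univ x)

lemma le_D (a : X → V n) (h : X → ℝ) (y : V n) {c : ℝ} (H : ∀ x, c ≤ h x + ‖y - a x‖) :
    c ≤ D a h y := by
  unfold D
  rw [Finset.le_inf'_iff]
  intro x _
  exact H x

lemma D_le_D_add (a : X → V n) (h h' : X → ℝ) (y : V n) {ρ : ℝ} (H : ∀ x, |h x - h' x| ≤ ρ) :
    D a h y ≤ D a h' y + ρ := by
  have : D a h y - ρ ≤ D a h' y := by
    apply le_D
    intro x
    have h1 := D_le a h y x
    have h2 := abs_le.mp (H x)
    linarith [h2.2]
  linarith

lemma D_diff (a : X → V n) (h h' : X → ℝ) (y : V n) {ρ : ℝ} (H : ∀ x, |h x - h' x| ≤ ρ) :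
    |D a h y - D a h' y| ≤ ρ := by
  rw [abs_le]
  have h1 := D_le_D_add a h h' y H
  have h2 := D_le_D_add a h' h y (fun x => by rw [abs_sub_comm]; exact H x)
  constructor <;> linarith

/-- Compatibility of the data `a` and `h`. -/
def Adm (a : X → V n) (h : X → ℝ) : Prop := ∀ x x', ‖a x - a x'‖ ≤ 1 + h x + h x'

lemma le_D_of_adm {a : X → V n} {h : X → ℝ} (H : Adm a h) (y : V n) (x : X) :
    ‖y - a x‖ - 1 - h x ≤ D a h y := by
  apply le_D
  intro x'
  have h1 := H x x'
  have h2 : ‖y - a x‖ ≤ ‖y - a x'‖ + ‖a x' - a x‖ := by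
    calc ‖y - a x‖ = ‖(y - a x') + (a x' - a x)‖ := by congr 1; abel
      _ ≤ _ := norm_add_le _ _
  rw [norm_sub_rev (a x') (a x)] at h2
  linarith

/-- lattice points used -/
def K (a : X → V n) : Finset (Fin n → ℤ) := by
  classical exact Finset.univ.image (fun x => rnd (a x))

omit [Nonempty X] in
lemma mem_K (a : X → V n) (x : X) : rnd (a x) ∈ K a := by
  unfold K
  exact Finset.mem_image_of_mem _ (Finset.mem_univ x)

/-- weights -/
def W (a : X → V n) (h : X → ℝ) (k : Fin n → ℤ) : ℝ := Real.exp (-(3 * n * D a h (emb k)))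

/-- the function to be minimised -/
def F (a : X → V n) (h : X → ℝ) (c : V n) : ℝ :=
  ∑ k ∈ K a, W a h k * Real.exp (n * Q (emb k - c))

lemma W_pos (a : X → V n) (h : X → ℝ) (k : Fin n → ℤ) : 0 < W a h k := Real.exp_pos _

lemma term_pos (a : X → V n) (h : X → ℝ) (c : V n) (k : Fin n → ℤ) :
    0 < W a h k * Real.exp (n * Q (emb k - c)) := mul_pos (W_pos a h k) (Real.exp_pos _)

lemma term_le_F (a : X → V n) (h : X → ℝ) (c : V n) {k : Fin n → ℤ} (hk : k ∈ K a) :
    W a h k * Real.exp (n * Q (emb k - c)) ≤ F a h c := by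
  unfold F
  exact Finset.single_le_sum (f := fun k => W a h k * Real.exp (n * Q (emb k - c)))
    (fun k _ => (term_pos a h c k).le) hk

lemma F_pos (a : X → V n) (h : X → ℝ) (c : V n) : 0 < F a h c :=
  lt_of_lt_of_le (term_pos a h c _) (term_le_F a h c (mem_K a (Classical.arbitrary X)))

lemma continuous_F (a : X → V n) (h : X → ℝ) : Continuous (F a h) := by
  unfold F
  apply continuous_finsetSum
  intro k _
  apply Continuous.mul continuous_const
  apply Real.continuous_exp.comp
  apply Continuous.mul continuous_const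
  exact continuous_Q.comp (continuous_const.sub continuous_id)

lemma exists_min (hn : 1 ≤ n) (a : X → V n) (h : X → ℝ) : ∃ c, ∀ c', F a h c ≤ F a h c' := by
  apply Continuous.exists_forall_le (continuous_F a h)
  set k0 := rnd (a (Classical.arbitrary X)) with hk0
  have hlow : ∀ c : V n, W a h k0 * Real.exp (-‖(emb k0 : V n)‖) * Real.exp ‖c‖ ≤ F a h c := by
    intro c
    refine le_trans ?_ (term_le_F a h c (mem_K a (Classical.arbitrary X)))
    rw [mul_assoc, ← Real.exp_add]
    apply mul_le_mul_of_nonneg_left _ (W_pos a h _).le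
    apply Real.exp_le_exp.mpr
    have h1 : ‖c‖ ≤ ‖emb k0 - c‖ + ‖(emb k0 : V n)‖ := by
      calc ‖c‖ = ‖emb k0 - (emb k0 - c)‖ := by congr 1; abel
        _ ≤ ‖(emb k0 : V n)‖ + ‖emb k0 - c‖ := norm_sub_le _ _
        _ = _ := add_comm _ _
    have h2 := norm_le_Q (emb k0 - c)
    have h3 : (1 : ℝ) ≤ n := by exact_mod_cast hn
    have h4 := Q_pos (emb k0 - c)
    nlinarith
  apply tendsto_atTop_mono hlow
  apply Tendsto.const_mul_atTop (by have := W_pos a h k0; positivity)
  exact Real.tendsto_exp_atTop.comp tendsto_norm_cocompact_atTop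

/-- the centre -/
def ctr (a : X → V n) (h : X → ℝ) : V n := by
  classical exact if H : ∃ c, ∀ c', F a h c ≤ F a h c' then H.choose else 0

lemma ctr_min (hn : 1 ≤ n) (a : X → V n) (h : X → ℝ) (c' : V n) :
    F a h (ctr a h) ≤ F a h c' := by
  have H := exists_min hn a h
  unfold ctr
  rw [dif_pos H]
  exact H.choose_spec c'

lemma hasDerivAt_Q_line (v u : V n) :
    HasDerivAt (fun t : ℝ => Q (v - t • u)) (-(inner ℝ v u / Q v)) 0 := by
  have h1 : HasDerivAt (fun t : ℝ => v - t • u) (-u) 0 := by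
    have : HasDerivAt (fun t : ℝ => t • u) ((1 : ℝ) • u) 0 := (hasDerivAt_id (0 : ℝ)).smul_const u
    rw [one_smul] at this
    simpa using this.const_sub v
  have h2 : HasDerivAt (fun t : ℝ => 1 + ‖v - t • u‖ ^ 2) (2 * inner ℝ (v - (0 : ℝ) • u) (-u)) 0 :=
    (h1.norm_sq).const_add 1
  have h3 : (1 + ‖v - (0 : ℝ) • u‖ ^ 2) ≠ 0 := by positivity
  have h4 := h2.sqrt h3
  unfold Q
  convert h4 using 1
  rw [zero_smul, sub_zero, inner_neg_right]
  have : 0 < Real.sqrt (1 + ‖v‖ ^ 2) := Real.sqrt_pos.mpr (by positivity)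
  field_simp

/-- first-order condition at a minimiser -/
lemma foc (hn : 1 ≤ n) (a : X → V n) (h : X → ℝ) (u : V n) :
    ∑ k ∈ K a, (W a h k * Real.exp (n * Q (emb k - ctr a h))) *
      (inner ℝ (emb k - ctr a h) u / Q (emb k - ctr a h)) = 0 := by
  set c := ctr a h with hc
  have hderiv : HasDerivAt (fun t : ℝ => F a h (c + t • u))
      (∑ k ∈ K a, W a h k * (Real.exp (n * Q (emb k - c)) *
        (n * -(inner ℝ (emb k - c) u / Q (emb k - c))))) 0 := by
    unfold F
    apply HasDerivAt.fun_sum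
    intro k _
    apply HasDerivAt.const_mul
    have h1 := (hasDerivAt_Q_line (emb k - c) u).const_mul (n : ℝ)
    have h2 := h1.exp
    simp only [zero_smul, sub_zero] at h2
    have e : (fun t : ℝ => Real.exp (n * Q (emb k - (c + t • u)))) =
        fun x : ℝ => Real.exp (n * Q (emb k - c - x • u)) := by
      funext t
      rw [sub_sub]
    rw [e]
    exact h2
  have hmin : IsLocalMin (fun t : ℝ => F a h (c + t • u)) 0 := by
    apply Filter.Eventually.of_forall
    intro t
    simp only [zero_smul, add_zero]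
    exact ctr_min hn a h _
  have h0 := hmin.hasDerivAt_eq_zero hderiv
  have hn' : (n : ℝ) ≠ 0 := by
    have : (0 : ℝ) < n := by exact_mod_cast hn
    exact this.ne'
  have e : ∑ k ∈ K a, W a h k * (Real.exp (n * Q (emb k - c)) *
        (n * -(inner ℝ (emb k - c) u / Q (emb k - c)))) =
      -(n : ℝ) * ∑ k ∈ K a, (W a h k * Real.exp (n * Q (emb k - c))) *
      (inner ℝ (emb k - c) u / Q (emb k - c)) := by
    rw [Finset.mul_sum]
    apply Finset.sum_congr rfl
    intro k _
    ring
  rw [e] at h0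
  exact (mul_eq_zero.mp h0).resolve_left (neg_ne_zero.mpr hn')

/-- probability weights at the centre -/
def pr (a : X → V n) (h : X → ℝ) (k : Fin n → ℤ) : ℝ :=
  W a h k * Real.exp (n * Q (emb k - ctr a h)) / F a h (ctr a h)

lemma pr_pos (a : X → V n) (h : X → ℝ) (k : Fin n → ℤ) : 0 < pr a h k :=
  div_pos (term_pos _ _ _ _) (F_pos _ _ _)

lemma sum_pr (a : X → V n) (h : X → ℝ) : ∑ k ∈ K a, pr a h k = 1 := by
  unfold pr
  rw [← Finset.sum_div]
  exact div_self (F_pos a h (ctr a h)).ne'

lemma log_pr (a : X → V n) (h : X → ℝ) (k : Fin n → ℤ) :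
    Real.log (pr a h k) = -(3 * n * D a h (emb k)) + n * Q (emb k - ctr a h)
      - Real.log (F a h (ctr a h)) := by
  unfold pr W
  rw [Real.log_div (mul_pos (Real.exp_pos _) (Real.exp_pos _)).ne' (F_pos _ _ _).ne',
    Real.log_mul (Real.exp_pos _).ne' (Real.exp_pos _).ne', Real.log_exp, Real.log_exp]

lemma foc_pr (hn : 1 ≤ n) (a : X → V n) (h : X → ℝ) (u : V n) :
    ∑ k ∈ K a, pr a h k * (inner ℝ (emb k - ctr a h) u / Q (emb k - ctr a h)) = 0 := by
  have h1 := foc hn a h u
  have : ∑ k ∈ K a, pr a h k * (inner ℝ (emb k - ctr a h) u / Q (emb k - ctr a h)) =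
      (∑ k ∈ K a, (W a h k * Real.exp (n * Q (emb k - ctr a h))) *
      (inner ℝ (emb k - ctr a h) u / Q (emb k - ctr a h))) / F a h (ctr a h) := by
    rw [Finset.sum_div]
    apply Finset.sum_congr rfl
    intro k _
    unfold pr
    ring
  rw [this, h1, zero_div]

/-- symmetrised relative entropy controls the total variation -/
lemma kl_ineq {ι : Type*} (s : Finset ι) (p p' : ι → ℝ) (hp : ∀ i ∈ s, 0 < p i)
    (hp' : ∀ i ∈ s, 0 < p' i) (hs : ∑ i ∈ s, p i = 1) (hs' : ∑ i ∈ s, p' i = 1) :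
    (∑ i ∈ s, |p' i - p i|) ^ 2 ≤
      2 * ∑ i ∈ s, (p' i - p i) * (Real.log (p' i) - Real.log (p i)) := by
  have key : ∀ x y : ℝ, 0 < x → 0 < y → x ≤ y →
      0 ≤ (y - x) * (Real.log y - Real.log x) ∧
      (y - x) ^ 2 ≤ (x + y) * ((y - x) * (Real.log y - Real.log x)) := by
    intro x y hx hy hxy
    have h1 : 1 - (y / x)⁻¹ ≤ Real.log (y / x) := Real.one_sub_inv_le_log_of_pos (div_pos hy hx)
    rw [Real.log_div hy.ne' hx.ne', inv_div] at h1
    have h2 : (y - x) / y ≤ Real.log y - Real.log x := by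
      have : 1 - x / y = (y - x) / y := by field_simp
      linarith
    have h3 : 0 ≤ y - x := by linarith
    have h4 : 0 ≤ (y - x) / y := div_nonneg h3 hy.le
    constructor
    · exact mul_nonneg h3 (h4.trans h2)
    · have h5 : (y - x) * ((y - x) / y) ≤ (y - x) * (Real.log y - Real.log x) :=
        mul_le_mul_of_nonneg_left h2 h3
      have h6 : (y - x) ^ 2 = y * ((y - x) * ((y - x) / y)) := by field_simp
      rw [h6]
      have h7 : 0 ≤ (y - x) * ((y - x) / y) := mul_nonneg h3 h4
      nlinarith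
  have hterm : ∀ i ∈ s, 0 ≤ (p' i - p i) * (Real.log (p' i) - Real.log (p i)) ∧
      |p' i - p i| ^ 2 ≤ (p i + p' i) *
        ((p' i - p i) * (Real.log (p' i) - Real.log (p i))) := by
    intro i hi
    rw [sq_abs]
    rcases le_total (p i) (p' i) with hle | hle
    · exact key _ _ (hp i hi) (hp' i hi) hle
    · have := key _ _ (hp' i hi) (hp i hi) hle
      constructor
      · nlinarith [this.1]
      · nlinarith [this.2]
  have h1 := Finset.sum_sq_le_sum_mul_sum_of_sq_le_mul s
    (r := fun i => |p' i - p i|) (f := fun i => p i + p' i)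
    (g := fun i => (p' i - p i) * (Real.log (p' i) - Real.log (p i)))
    (fun i hi => by have := hp i hi; have := hp' i hi; positivity)
    (fun i hi => (hterm i hi).1) (fun i hi => (hterm i hi).2)
  rw [Finset.sum_add_distrib, hs, hs'] at h1
  linarith

/-- The main stability identity. -/
lemma stability (hn : 1 ≤ n) (a : X → V n) (h h' : X → ℝ) {ρ : ℝ}
    (H : ∀ x, |h x - h' x| ≤ ρ) :
    ∑ k ∈ K a, (pr a h' k - pr a h k) * (Real.log (pr a h' k) - Real.log (pr a h k)) +
      n * ‖ctr a h - ctr a h'‖ ^ 2 * ∑ k ∈ K a, pr a h k /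
        (2 * Q (emb k - ctr a h') * Q (emb k - ctr a h) ^ 2)
      ≤ 3 * n * ρ * ∑ k ∈ K a, |pr a h' k - pr a h k| := by
  set c := ctr a h with hc
  set c' := ctr a h' with hc'
  have hn0 : (0 : ℝ) ≤ n := Nat.cast_nonneg n
  -- termwise identity
  have e1 : ∑ k ∈ K a, (pr a h' k - pr a h k) * (Real.log (pr a h' k) - Real.log (pr a h k))
      = ∑ k ∈ K a, (pr a h' k - pr a h k) * (3 * n * (D a h (emb k) - D a h' (emb k)))
        + n * ∑ k ∈ K a, (pr a h' k - pr a h k) * (Q (emb k - c') - Q (emb k - c)) := by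
    have e2 : ∑ k ∈ K a, (pr a h' k - pr a h k) * (Real.log (pr a h' k) - Real.log (pr a h k))
      = ∑ k ∈ K a, ((pr a h' k - pr a h k) * (3 * n * (D a h (emb k) - D a h' (emb k)))
        + n * ((pr a h' k - pr a h k) * (Q (emb k - c') - Q (emb k - c)))
        + (pr a h' k - pr a h k) * (Real.log (F a h c) - Real.log (F a h' c'))) := by
      apply Finset.sum_congr rfl
      intro k _
      rw [log_pr, log_pr]
      ring
    rw [e2, Finset.sum_add_distrib, Finset.sum_add_distrib, ← Finset.mul_sum, ← Finset.sum_mul,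
      Finset.sum_sub_distrib, sum_pr, sum_pr]
    ring
  -- Bregman bounds
  have b1 : ∑ k ∈ K a, pr a h' k * (Q (emb k - c') - Q (emb k - c)) ≤ 0 := by
    have f1 := foc_pr hn a h' (c' - c)
    have : ∑ k ∈ K a, pr a h' k * (Q (emb k - c') - Q (emb k - c)) ≤
        ∑ k ∈ K a, -(pr a h' k * (inner ℝ (emb k - c') (c' - c) / Q (emb k - c'))) := by
      apply Finset.sum_le_sum
      intro k _
      have hb := bregman (emb k - c') (emb k - c)
      have e : (emb k - c) - (emb k - c') = c' - c := by abel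
      rw [e] at hb
      have hpos : 0 ≤ ‖emb k - c' - (emb k - c)‖ ^ 2 /
          (2 * Q (emb k - c) * Q (emb k - c') ^ 2) := by
        have := Q_pos (emb k - c)
        have := Q_pos (emb k - c')
        positivity
      have hp := (pr_pos a h' k).le
      have h5 : Q (emb k - c') - Q (emb k - c) ≤
          -(inner ℝ (emb k - c') (c' - c) / Q (emb k - c')) := by linarith
      have h6 := mul_le_mul_of_nonneg_left h5 hp
      rw [mul_neg] at h6
      exact h6
    rw [Finset.sum_neg_distrib] at this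
    rw [f1, neg_zero] at this
    exact this
  have b2 : ∑ k ∈ K a, pr a h k * (Q (emb k - c) - Q (emb k - c')) ≤
      -(‖c - c'‖ ^ 2 * ∑ k ∈ K a, pr a h k /
        (2 * Q (emb k - c') * Q (emb k - c) ^ 2)) := by
    have f1 := foc_pr hn a h (c - c')
    have : ∑ k ∈ K a, pr a h k * (Q (emb k - c) - Q (emb k - c')) ≤
        ∑ k ∈ K a, (-(pr a h k * (inner ℝ (emb k - c) (c - c') / Q (emb k - c)))
          - ‖c - c'‖ ^ 2 * (pr a h k / (2 * Q (emb k - c') * Q (emb k - c) ^ 2))) := by
      apply Finset.sum_le_sum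
      intro k _
      have hb := bregman (emb k - c) (emb k - c')
      have e : (emb k - c') - (emb k - c) = c - c' := by abel
      have e' : (emb k - c) - (emb k - c') = -(c - c') := by abel
      rw [e, e', norm_neg] at hb
      have hp := (pr_pos a h k).le
      have h5 : Q (emb k - c) - Q (emb k - c') ≤
          -(inner ℝ (emb k - c) (c - c') / Q (emb k - c))
          - ‖c - c'‖ ^ 2 / (2 * Q (emb k - c') * Q (emb k - c) ^ 2) := by linarith
      have h6 := mul_le_mul_of_nonneg_left h5 hp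
      refine h6.trans (le_of_eq ?_)
      ring
    rw [Finset.sum_sub_distrib, Finset.sum_neg_distrib, ← Finset.mul_sum] at this
    rw [f1, neg_zero, zero_sub] at this
    exact this
  have b3 : ∑ k ∈ K a, (pr a h' k - pr a h k) * (Q (emb k - c') - Q (emb k - c)) ≤
      -(‖c - c'‖ ^ 2 * ∑ k ∈ K a, pr a h k /
        (2 * Q (emb k - c') * Q (emb k - c) ^ 2)) := by
    have e : ∑ k ∈ K a, (pr a h' k - pr a h k) * (Q (emb k - c') - Q (emb k - c)) =
        ∑ k ∈ K a, pr a h' k * (Q (emb k - c') - Q (emb k - c)) +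
        ∑ k ∈ K a, pr a h k * (Q (emb k - c) - Q (emb k - c')) := by
      rw [← Finset.sum_add_distrib]
      apply Finset.sum_congr rfl
      intro k _
      ring
    rw [e]
    linarith
  have b4 : ∑ k ∈ K a, (pr a h' k - pr a h k) * (3 * n * (D a h (emb k) - D a h' (emb k))) ≤
      3 * n * ρ * ∑ k ∈ K a, |pr a h' k - pr a h k| := by
    rw [Finset.mul_sum]
    apply Finset.sum_le_sum
    intro k _
    calc (pr a h' k - pr a h k) * (3 * n * (D a h (emb k) - D a h' (emb k)))
        ≤ |(pr a h' k - pr a h k) * (3 * n * (D a h (emb k) - D a h' (emb k)))| := le_abs_self _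
      _ = |pr a h' k - pr a h k| * (3 * n * |D a h (emb k) - D a h' (emb k)|) := by
          rw [abs_mul, abs_mul, abs_of_nonneg (by positivity : (0:ℝ) ≤ 3 * n)]
      _ ≤ |pr a h' k - pr a h k| * (3 * n * ρ) := by
          apply mul_le_mul_of_nonneg_left _ (abs_nonneg _)
          apply mul_le_mul_of_nonneg_left (D_diff a h h' _ H) (by positivity)
      _ = _ := by ring
  rw [e1]
  have b5 := mul_le_mul_of_nonneg_left b3 hn0
  have e6 : (n : ℝ) * -(‖c - c'‖ ^ 2 * ∑ k ∈ K a, pr a h k /
        (2 * Q (emb k - c') * Q (emb k - c) ^ 2)) = -(n * ‖c - c'‖ ^ 2 * ∑ k ∈ K a, pr a h k /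
        (2 * Q (emb k - c') * Q (emb k - c) ^ 2)) := by ring
  rw [e6] at b5
  linarith

end

end Pool.Agent.MPe08f0b
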