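import Pool.Agent.Lib.MP_e08f0b_an.OneScale

/-!
Gluing of the one-scale maps over dyadic scales, for a finite set `E`.
-/

set_option autoImplicit false

open scoped BigOperators
open Filter Topology

namespace Pool.Agent.MPe08f0b

noncomputable section

/-- interpolation between the two bounds -/
lemma interp {n : ℕ} (hn : 1 ≤ n) {α ρ N : ℝ} (hα : 1 / 2 ≤ α) (hα1 : α ≤ 1) (hρ : 0 ≤ ρ)
    (h1 : N ^ 2 ≤ 4000 ^ 2 * ρ) (h2 : N ^ 2 ≤ 4000 ^ 2 * (n * ρ ^ 2)) :
    N ≤ 4000 * ((n : ℝ) ^ (α - 1 / 2) * ρ ^ α) := by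
  have hn0 : (0 : ℝ) < n := by exact_mod_cast hn
  rcases hρ.eq_or_lt with h0 | hpos
  · rw [← h0] at h1
    have : N ^ 2 = 0 := le_antisymm (by simpa using h1) (sq_nonneg _)
    have hN0 : N = 0 := by simpa using this
    rw [hN0]
    positivity
  · set t : ℝ := n * ρ with ht
    have ht0 : 0 < t := mul_pos hn0 hpos
    have hmain : N ^ 2 ≤ 4000 ^ 2 * (ρ * t ^ (2 * α - 1)) := by
      rcases le_total 1 t with h | h
      · have : 1 ≤ t ^ (2 * α - 1) := Real.one_le_rpow h (by linarith)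
        calc N ^ 2 ≤ 4000 ^ 2 * ρ := h1
          _ = 4000 ^ 2 * (ρ * 1) := by ring
          _ ≤ 4000 ^ 2 * (ρ * t ^ (2 * α - 1)) := by gcongr
      · have : t ≤ t ^ (2 * α - 1) := by
          calc t = t ^ (1 : ℝ) := (Real.rpow_one t).symm
            _ ≤ t ^ (2 * α - 1) := Real.rpow_le_rpow_of_exponent_ge ht0 h (by linarith)
        calc N ^ 2 ≤ 4000 ^ 2 * (n * ρ ^ 2) := h2
          _ = 4000 ^ 2 * (ρ * t) := by rw [ht]; ring
          _ ≤ 4000 ^ 2 * (ρ * t ^ (2 * α - 1)) := by gcongr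
    have hsq : (4000 * ((n : ℝ) ^ (α - 1 / 2) * ρ ^ α)) ^ 2 = 4000 ^ 2 * (ρ * t ^ (2 * α - 1)) := by
      rw [mul_pow, mul_pow, ← Real.rpow_natCast, ← Real.rpow_natCast, ← Real.rpow_natCast,
        ← Real.rpow_mul hn0.le, ← Real.rpow_mul hpos.le, ht, Real.mul_rpow hn0.le hpos.le]
      have e1 : (α - 1 / 2) * ((2 : ℕ) : ℝ) = 2 * α - 1 := by push_cast; ring
      have e2 : α * ((2 : ℕ) : ℝ) = 1 + (2 * α - 1) := by push_cast; ring
      rw [e1, e2, Real.rpow_add hpos, Real.rpow_one]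
      ring
    rw [← hsq] at hmain
    exact le_of_sq_le_sq hmain (by positivity)

lemma rpow_le_one_add {t α : ℝ} (ht : 0 ≤ t) (hα : 0 ≤ α) (hα1 : α ≤ 1) : t ^ α ≤ 1 + t := by
  rcases le_total t 1 with h | h
  · have := Real.rpow_le_one ht h hα
    linarith
  · have : t ^ α ≤ t ^ (1 : ℝ) := Real.rpow_le_rpow_of_exponent_le h hα1
    rw [Real.rpow_one] at this
    linarith

/-- if `0 ≤ d ≤ l` then `(d / l) * l ^ α ≤ d ^ α` -/
lemma div_mul_rpow_le {d l α : ℝ} (hd : 0 ≤ d) (hl : 0 < l) (hdl : d ≤ l) (hα1 : α ≤ 1)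
    (hα : 0 < α) : d / l * l ^ α ≤ d ^ α := by
  rcases hd.eq_or_lt with h | h
  · rw [← h]; simp [Real.zero_rpow hα.ne']
  · have h1 : d / l ≤ (d / l) ^ α := by
      calc d / l = (d / l) ^ (1 : ℝ) := (Real.rpow_one _).symm
        _ ≤ (d / l) ^ α := Real.rpow_le_rpow_of_exponent_ge (div_pos h hl)
            ((div_le_one hl).mpr hdl) hα1
    calc d / l * l ^ α ≤ (d / l) ^ α * l ^ α := by
          apply mul_le_mul_of_nonneg_right h1 (by positivity)
      _ = d ^ α := by
          rw [Real.div_rpow hd hl.le]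
          field_simp

variable {n : ℕ} {M : Type*} [MetricSpace M]

/-- the one-scale map -/
def psi (E : Finset M) (hE : E.Nonempty) (φ : M → V n) (α l : ℝ) (z : M) : V n :=
  haveI : Nonempty {x // x ∈ E} := hE.to_subtype
  (l ^ α) • ctr (fun x : {x // x ∈ E} => (l ^ α)⁻¹ • φ x.1) (fun x => dist z x.1 / l)

section finite

variable {E : Finset M} (hE : E.Nonempty) {φ : M → V n} {α : ℝ} (hn : 1 ≤ n)
  (hα : 1 / 2 ≤ α) (hα1 : α ≤ 1)
  (hφ : ∀ x ∈ E, ∀ y ∈ E, ‖φ x - φ y‖ ≤ dist x y ^ α)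

include hα hα1 hφ in
lemma adm_scale {l : ℝ} (hl : 0 < l) (z : M) :
    Adm (fun x : {x // x ∈ E} => (l ^ α)⁻¹ • φ x.1) (fun x => dist z x.1 / l) := by
  intro x x'
  have hla : 0 < l ^ α := Real.rpow_pos_of_pos hl α
  rw [← smul_sub, norm_smul, norm_inv, Real.norm_eq_abs, abs_of_pos hla]
  have h1 := hφ x.1 x.2 x'.1 x'.2
  have h2 : (l ^ α)⁻¹ * ‖φ x.1 - φ x'.1‖ ≤ (dist x.1 x'.1 / l) ^ α := by
    rw [Real.div_rpow dist_nonneg hl.le, div_eq_inv_mul]
    gcongr
  have h3 : (dist x.1 x'.1 / l) ^ α ≤ 1 + dist x.1 x'.1 / l :=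
    rpow_le_one_add (by positivity) (by linarith) hα1
  have h4 : dist x.1 x'.1 / l ≤ dist z x.1 / l + dist z x'.1 / l := by
    rw [← add_div]
    gcongr
    exact dist_triangle_left _ _ _
  linarith

include hn hα hα1 hφ in
lemma psi_close {l : ℝ} (hl : 0 < l) {z x : M} (hx : x ∈ E) (hzx : dist z x ≤ 2 * l) :
    ‖psi E hE φ α l z - φ x‖ ≤ 22 * l ^ α := by
  have : Nonempty {x // x ∈ E} := hE.to_subtype
  have hla : 0 < l ^ α := Real.rpow_pos_of_pos hl α
  have h1 := ctr_close hn (adm_scale hα hα1 hφ hl z) ⟨x, hx⟩ (by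
    show dist z x / l ≤ 2
    rw [div_le_iff₀ hl]
    linarith)
  have e : psi E hE φ α l z - φ x = (l ^ α) • (ctr (fun x : {x // x ∈ E} => (l ^ α)⁻¹ • φ x.1)
      (fun x => dist z x.1 / l) - (l ^ α)⁻¹ • φ x) := by
    rw [smul_sub, smul_smul, mul_inv_cancel₀ hla.ne', one_smul]
    rfl
  rw [e, norm_smul, Real.norm_eq_abs, abs_of_pos hla, mul_comm]
  exact mul_le_mul_of_nonneg_right h1 hla.le

include hn hα hα1 hφ in
lemma psi_holder {l : ℝ} (hl : 0 < l) {z z' x x' : M} (hx : x ∈ E) (hzx : dist z x ≤ 2 * l)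
    (hx' : x' ∈ E) (hzx' : dist z' x' ≤ 2 * l) (hzz : dist z z' ≤ l) :
    ‖psi E hE φ α l z - psi E hE φ α l z'‖ ≤
      4000 * ((n : ℝ) ^ (α - 1 / 2) * dist z z' ^ α) := by
  have : Nonempty {x // x ∈ E} := hE.to_subtype
  have hla : 0 < l ^ α := Real.rpow_pos_of_pos hl α
  have hρ0 : 0 ≤ dist z z' / l := by positivity
  have h1 := one_scale hn (adm_scale hα hα1 hφ hl z) (adm_scale hα hα1 hφ hl z')
    ⟨x, hx⟩ ⟨x', hx'⟩ (by
      show dist z x / l ≤ 2
      rw [div_le_iff₀ hl]; linarith) (by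
      show dist z' x' / l ≤ 2
      rw [div_le_iff₀ hl]; linarith) hρ0 (by rw [div_le_one hl]; exact hzz) (by
      intro y
      rw [← sub_div, abs_div, abs_of_pos hl]
      gcongr
      exact abs_dist_sub_le z z' y.1)
  have h2 := interp hn hα hα1 hρ0 h1.1 h1.2
  have e : psi E hE φ α l z - psi E hE φ α l z' = (l ^ α) •
      (ctr (fun x : {x // x ∈ E} => (l ^ α)⁻¹ • φ x.1) (fun x => dist z x.1 / l) -
       ctr (fun x : {x // x ∈ E} => (l ^ α)⁻¹ • φ x.1) (fun x => dist z' x.1 / l)) := by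
    rw [smul_sub]
    rfl
  rw [e, norm_smul, Real.norm_eq_abs, abs_of_pos hla]
  calc l ^ α * _ ≤ l ^ α * (4000 * ((n : ℝ) ^ (α - 1 / 2) * (dist z z' / l) ^ α)) :=
        mul_le_mul_of_nonneg_left h2 hla.le
    _ = 4000 * ((n : ℝ) ^ (α - 1 / 2) * dist z z' ^ α) := by
        rw [Real.div_rpow dist_nonneg hl.le]
        field_simp

/-- distance to `E` -/
def rad (E : Finset M) (hE : E.Nonempty) (z : M) : ℝ := E.inf' hE (fun x => dist z x)

lemma rad_le {x : M} (hx : x ∈ E) (z : M) : rad E hE z ≤ dist z x :=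
  Finset.inf'_le _ hx

lemma exists_rad (z : M) : ∃ x ∈ E, rad E hE z = dist z x :=
  Finset.exists_mem_eq_inf' hE _

lemma rad_nonneg (z : M) : 0 ≤ rad E hE z := by
  obtain ⟨x, _, hx⟩ := exists_rad hE z
  rw [hx]; exact dist_nonneg

lemma rad_le_add (z z' : M) : rad E hE z ≤ rad E hE z' + dist z z' := by
  obtain ⟨x, hx, he⟩ := exists_rad hE z'
  rw [he]
  have := rad_le hE hx z
  have h2 := dist_triangle z z' x
  linarith

lemma rad_pos {z : M} (hz : z ∉ E) : 0 < rad E hE z := by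
  obtain ⟨x, hx, he⟩ := exists_rad hE z
  rw [he]
  exact dist_pos.mpr (fun h => hz (h ▸ hx))

lemma rad_eq_zero {z : M} (hz : z ∈ E) : rad E hE z = 0 := by
  apply le_antisymm _ (rad_nonneg hE z)
  have := rad_le hE hz z
  rwa [dist_self] at this

/-- the dyadic index of the distance to `E` -/
def kk (E : Finset M) (hE : E.Nonempty) (z : M) : ℤ := Int.log 2 (rad E hE z)

lemma kk_le {z : M} (hz : z ∉ E) : (2 : ℝ) ^ (kk E hE z) ≤ rad E hE z := by
  have := Int.zpow_log_le_self (R := ℝ) (b := 2) (by norm_num) (rad_pos hE hz)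
  simpa [kk] using this

lemma lt_kk (z : M) : rad E hE z < 2 * (2 : ℝ) ^ (kk E hE z) := by
  have := Int.lt_zpow_succ_log_self (R := ℝ) (b := 2) (by norm_num) (rad E hE z)
  rw [zpow_add₀ (by norm_num)] at this
  simp only [Nat.cast_ofNat, zpow_one] at this
  rw [mul_comm]
  exact this

/-- the interpolation parameter -/
def th (E : Finset M) (hE : E.Nonempty) (z : M) : ℝ :=
  rad E hE z / (2 : ℝ) ^ (kk E hE z) - 1

lemma th_nonneg {z : M} (hz : z ∉ E) : 0 ≤ th E hE z := by
  unfold th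
  have h := kk_le hE hz
  have h2 : (0 : ℝ) < (2 : ℝ) ^ (kk E hE z) := by positivity
  rw [sub_nonneg, one_le_div h2]
  exact h

lemma th_le (z : M) : th E hE z ≤ 1 := by
  unfold th
  have h := lt_kk hE z
  have h2 : (0 : ℝ) < (2 : ℝ) ^ (kk E hE z) := by positivity
  rw [sub_le_iff_le_add, div_le_iff₀ h2]
  linarith

/-- the map off `E` -/
def off (E : Finset M) (hE : E.Nonempty) (φ : M → V n) (α : ℝ) (z : M) : V n :=
  (1 - th E hE z) • psi E hE φ α ((2 : ℝ) ^ (kk E hE z)) z +
    th E hE z • psi E hE φ α (2 * (2 : ℝ) ^ (kk E hE z)) z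

/-- the extension -/
def ext (E : Finset M) (hE : E.Nonempty) (φ : M → V n) (α : ℝ) (z : M) : V n := by
  classical exact if z ∈ E then φ z else off E hE φ α z

lemma ext_of_mem {z : M} (hz : z ∈ E) : ext E hE φ α z = φ z := by
  unfold ext; rw [if_pos hz]

lemma ext_of_not_mem {z : M} (hz : z ∉ E) : ext E hE φ α z = off E hE φ α z := by
  unfold ext; rw [if_neg hz]

lemma two_mul_rpow_le {l α : ℝ} (hl : 0 ≤ l) (hα1 : α ≤ 1) : (2 * l) ^ α ≤ 2 * l ^ α := by
  rw [Real.mul_rpow (by norm_num) hl]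
  have : (2 : ℝ) ^ α ≤ 2 ^ (1 : ℝ) := Real.rpow_le_rpow_of_exponent_le (by norm_num) hα1
  rw [Real.rpow_one] at this
  gcongr

include hn hα hα1 hφ in
lemma off_close {z x : M} (hz : z ∉ E) (hx : x ∈ E) (hzx : rad E hE z = dist z x) :
    ‖off E hE φ α z - φ x‖ ≤ 44 * rad E hE z ^ α := by
  set l : ℝ := (2 : ℝ) ^ (kk E hE z) with hl
  have hl0 : 0 < l := by positivity
  have hlr : l ≤ rad E hE z := kk_le hE hz
  have hrl : rad E hE z < 2 * l := lt_kk hE z
  have t0 := th_nonneg hE hz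
  have t1 := th_le hE z
  have p1 := psi_close hE hn hα hα1 hφ hl0 (z := z) hx (by rw [← hzx]; linarith)
  have p2 := psi_close hE hn hα hα1 hφ (l := 2 * l) (by positivity) (z := z) hx
    (by rw [← hzx]; linarith)
  have q := two_mul_rpow_le (α := α) hl0.le hα1
  have e : off E hE φ α z - φ x = (1 - th E hE z) • (psi E hE φ α l z - φ x) +
      th E hE z • (psi E hE φ α (2 * l) z - φ x) := by
    unfold off
    rw [← hl]
    module
  rw [e]
  have hla : 0 ≤ l ^ α := by positivity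
  have hlr' : l ^ α ≤ rad E hE z ^ α := Real.rpow_le_rpow hl0.le hlr (by linarith)
  calc ‖(1 - th E hE z) • (psi E hE φ α l z - φ x) +
      th E hE z • (psi E hE φ α (2 * l) z - φ x)‖
      ≤ (1 - th E hE z) * (22 * l ^ α) + th E hE z * (22 * (2 * l) ^ α) := by
        refine (norm_add_le _ _).trans ?_
        rw [norm_smul, norm_smul, Real.norm_eq_abs, Real.norm_eq_abs, abs_of_nonneg t0,
          abs_of_nonneg (by linarith : 0 ≤ 1 - th E hE z)]
        gcongr
    _ ≤ (1 - th E hE z) * (44 * l ^ α) + th E hE z * (44 * l ^ α) := by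
        apply add_le_add
        · exact mul_le_mul_of_nonneg_left (by linarith) (by linarith)
        · exact mul_le_mul_of_nonneg_left (by linarith) t0
    _ = 44 * l ^ α := by ring
    _ ≤ 44 * rad E hE z ^ α := by gcongr

include hn hα hα1 hφ in
lemma ext_close (z : M) : ∃ x ∈ E, rad E hE z = dist z x ∧
    ‖ext E hE φ α z - φ x‖ ≤ 44 * rad E hE z ^ α := by
  by_cases hz : z ∈ E
  · refine ⟨z, hz, ?_, ?_⟩
    · rw [dist_self, rad_eq_zero hE hz]
    · rw [ext_of_mem hE hz, sub_self, norm_zero]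
      have := rad_nonneg hE z
      positivity
  · obtain ⟨x, hx, he⟩ := exists_rad hE z
    refine ⟨x, hx, he, ?_⟩
    rw [ext_of_not_mem hE hz]
    exact off_close hE hn hα hα1 hφ hz hx he

include hn hα hα1 hφ in
/-- far pairs -/
lemma ext_far {z z' : M} (h1 : rad E hE z ≤ 4 * dist z z') (h2 : rad E hE z' ≤ 4 * dist z z') :
    ‖ext E hE φ α z - ext E hE φ α z'‖ ≤ 361 * dist z z' ^ α := by
  obtain ⟨x, hx, he, hc⟩ := ext_close hE hn hα hα1 hφ z
  obtain ⟨x', hx', he', hc'⟩ := ext_close hE hn hα hα1 hφ z'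
  have hα0 : 0 < α := by linarith
  set d := dist z z' with hd
  have hd0 : 0 ≤ d := dist_nonneg
  have b4 : (4 * d) ^ α ≤ 4 * d ^ α := by
    rw [Real.mul_rpow (by norm_num) hd0]
    have : (4 : ℝ) ^ α ≤ 4 ^ (1 : ℝ) := Real.rpow_le_rpow_of_exponent_le (by norm_num) hα1
    rw [Real.rpow_one] at this
    gcongr
  have b9 : (9 * d) ^ α ≤ 9 * d ^ α := by
    rw [Real.mul_rpow (by norm_num) hd0]
    have : (9 : ℝ) ^ α ≤ 9 ^ (1 : ℝ) := Real.rpow_le_rpow_of_exponent_le (by norm_num) hα1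
    rw [Real.rpow_one] at this
    gcongr
  have r1 : rad E hE z ^ α ≤ 4 * d ^ α :=
    (Real.rpow_le_rpow (rad_nonneg hE z) h1 hα0.le).trans b4
  have r2 : rad E hE z' ^ α ≤ 4 * d ^ α :=
    (Real.rpow_le_rpow (rad_nonneg hE z') h2 hα0.le).trans b4
  have r3 : ‖φ x - φ x'‖ ≤ 9 * d ^ α := by
    refine (hφ x hx x' hx').trans ?_
    refine le_trans ?_ b9
    apply Real.rpow_le_rpow dist_nonneg _ hα0.le
    have t1 := dist_triangle x z x'
    have t2 := dist_triangle z z' x'
    rw [dist_comm x z, ← he] at t1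
    rw [← he'] at t2
    linarith
  calc ‖ext E hE φ α z - ext E hE φ α z'‖
      = ‖(ext E hE φ α z - φ x) + (φ x - φ x') - (ext E hE φ α z' - φ x')‖ := by
        congr 1; abel
    _ ≤ ‖(ext E hE φ α z - φ x) + (φ x - φ x')‖ + ‖ext E hE φ α z' - φ x'‖ := norm_sub_le _ _
    _ ≤ ‖ext E hE φ α z - φ x‖ + ‖φ x - φ x'‖ + ‖ext E hE φ α z' - φ x'‖ := by
        gcongr; exact norm_add_le _ _
    _ ≤ 361 * d ^ α := by linarith

include hn hα hα1 hφ in
lemma psi_adj {l : ℝ} (hl : 0 < l) {z x : M} (hx : x ∈ E) (hzx : dist z x ≤ 2 * l) :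
    ‖psi E hE φ α (2 * l) z - psi E hE φ α l z‖ ≤ 66 * l ^ α := by
  have p1 := psi_close hE hn hα hα1 hφ hl (z := z) hx hzx
  have p2 := psi_close hE hn hα hα1 hφ (l := 2 * l) (by positivity) (z := z) hx (by linarith)
  have q := two_mul_rpow_le (α := α) hl.le hα1
  calc ‖psi E hE φ α (2 * l) z - psi E hE φ α l z‖
      = ‖(psi E hE φ α (2 * l) z - φ x) - (psi E hE φ α l z - φ x)‖ := by congr 1; abel
    _ ≤ _ := norm_sub_le _ _
    _ ≤ 66 * l ^ α := by linarith

include hn hα hα1 hφ in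
/-- near pairs, with the larger distance first -/
lemma ext_near {z z' : M} (hz : z ∉ E) (hz' : z' ∉ E) (hd : dist z z' ≤ rad E hE z / 4)
    (hr : rad E hE z' ≤ rad E hE z) :
    ‖off E hE φ α z - off E hE φ α z'‖ ≤ 4200 * ((n : ℝ) ^ (α - 1 / 2) * dist z z' ^ α) := by
  have hα0 : 0 < α := by linarith
  set d := dist z z' with hdd
  have hd0 : 0 ≤ d := dist_nonneg
  have hs1 : 1 ≤ (n : ℝ) ^ (α - 1 / 2) :=
    Real.one_le_rpow (by exact_mod_cast hn) (by linarith)
  set s : ℝ := (n : ℝ) ^ (α - 1 / 2) with hs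
  have hda : 0 ≤ d ^ α := by positivity
  have hsd : d ^ α ≤ s * d ^ α := by nlinarith
  obtain ⟨x, hx, he⟩ := exists_rad hE z
  obtain ⟨x', hx', he'⟩ := exists_rad hE z'
  set l : ℝ := (2 : ℝ) ^ (kk E hE z) with hl
  have hl0 : 0 < l := by positivity
  have hlr : l ≤ rad E hE z := kk_le hE hz
  have hrl : rad E hE z < 2 * l := lt_kk hE z
  have hrd := rad_le_add hE z z'
  rw [← hdd] at hrd
  have hdl : d ≤ l := by linarith
  have t0 := th_nonneg hE hz
  have t1 := th_le hE z
  have t0' := th_nonneg hE hz'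
  have t1' := th_le hE z'
  have D1 := div_mul_rpow_le hd0 hl0 hdl hα1 hα0
  rcases le_or_gt l (rad E hE z') with hcase | hcase
  · -- same dyadic interval
    have hk : kk E hE z' = kk E hE z := by
      have a1 := kk_le hE hz'
      have a2 := lt_kk hE z'
      have b1 : (2 : ℝ) ^ (kk E hE z') < (2 : ℝ) ^ (kk E hE z + 1) := by
        rw [zpow_add₀ (by norm_num), zpow_one]
        linarith
      have b2 : (2 : ℝ) ^ (kk E hE z) < (2 : ℝ) ^ (kk E hE z' + 1) := by
        rw [zpow_add₀ (by norm_num), zpow_one]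
        linarith
      have c1 := (zpow_lt_zpow_iff_right₀ (by norm_num : (1:ℝ) < 2)).mp b1
      have c2 := (zpow_lt_zpow_iff_right₀ (by norm_num : (1:ℝ) < 2)).mp b2
      omega
    have A1 := psi_holder hE hn hα hα1 hφ hl0 hx (z := z) (by rw [← he]; linarith) hx'
      (z' := z') (by rw [← he']; linarith) hdl
    have A2 := psi_holder hE hn hα hα1 hφ (l := 2 * l) (by positivity) hx (z := z)
      (by rw [← he]; linarith) hx' (z' := z') (by rw [← he']; linarith) (by rw [← hdd]; linarith)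
    have A3 := psi_adj hE hn hα hα1 hφ hl0 hx' (z := z') (by rw [← he']; linarith)
    rw [← hdd, ← hs] at A1 A2
    have hth : |th E hE z - th E hE z'| ≤ d / l := by
      unfold th
      rw [hk, ← hl]
      have : rad E hE z / l - 1 - (rad E hE z' / l - 1) = (rad E hE z - rad E hE z') / l := by
        ring
      rw [this, abs_div, abs_of_pos hl0, abs_of_nonneg (by linarith)]
      gcongr
      linarith
    have e : off E hE φ α z - off E hE φ α z' =
        (1 - th E hE z) • (psi E hE φ α l z - psi E hE φ α l z') +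
        th E hE z • (psi E hE φ α (2 * l) z - psi E hE φ α (2 * l) z') +
        (th E hE z - th E hE z') • (psi E hE φ α (2 * l) z' - psi E hE φ α l z') := by
      unfold off
      rw [hk, ← hl]
      module
    rw [e]
    calc ‖(1 - th E hE z) • (psi E hE φ α l z - psi E hE φ α l z') +
        th E hE z • (psi E hE φ α (2 * l) z - psi E hE φ α (2 * l) z') +
        (th E hE z - th E hE z') • (psi E hE φ α (2 * l) z' - psi E hE φ α l z')‖
        ≤ (1 - th E hE z) * (4000 * (s * d ^ α)) + th E hE z * (4000 * (s * d ^ α)) +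
          (d / l) * (66 * l ^ α) := by
          refine (norm_add_le _ _).trans ?_
          refine add_le_add ((norm_add_le _ _).trans ?_) ?_
          · rw [norm_smul, norm_smul, Real.norm_eq_abs, Real.norm_eq_abs, abs_of_nonneg t0,
              abs_of_nonneg (by linarith : 0 ≤ 1 - th E hE z)]
            exact add_le_add (mul_le_mul_of_nonneg_left A1 (by linarith))
              (mul_le_mul_of_nonneg_left A2 t0)
          · rw [norm_smul, Real.norm_eq_abs]
            exact mul_le_mul hth A3 (norm_nonneg _) (by positivity)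
      _ = 4000 * (s * d ^ α) + 66 * (d / l * l ^ α) := by ring
      _ ≤ 4200 * (s * d ^ α) := by linarith
  · -- adjacent dyadic intervals
    have hk : kk E hE z' = kk E hE z - 1 := by
      have a1 := kk_le hE hz'
      have a2 := lt_kk hE z'
      have b1 : (2 : ℝ) ^ (kk E hE z') < (2 : ℝ) ^ (kk E hE z) := by
        linarith
      have b2 : (2 : ℝ) ^ (kk E hE z - 1) < (2 : ℝ) ^ (kk E hE z' + 1) := by
        rw [zpow_add₀ (by norm_num), zpow_one, zpow_sub₀ (by norm_num), zpow_one, ← hl]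
        linarith
      have c1 := (zpow_lt_zpow_iff_right₀ (by norm_num : (1:ℝ) < 2)).mp b1
      have c2 := (zpow_lt_zpow_iff_right₀ (by norm_num : (1:ℝ) < 2)).mp b2
      omega
    have hl' : (2 : ℝ) ^ (kk E hE z') = l / 2 := by
      rw [hk, zpow_sub₀ (by norm_num), zpow_one]
    have A1 := psi_holder hE hn hα hα1 hφ hl0 hx (z := z) (by rw [← he]; linarith) hx'
      (z' := z') (by rw [← he']; linarith) hdl
    rw [← hdd, ← hs] at A1
    have A2 := psi_adj hE hn hα hα1 hφ hl0 hx (z := z) (by rw [← he]; linarith)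
    have A3 := psi_adj hE hn hα hα1 hφ (l := l / 2) (by positivity) hx' (z := z')
      (by rw [← he']; linarith)
    have e2 : 2 * (l / 2) = l := by ring
    rw [e2] at A3
    have hhalf : (l / 2) ^ α ≤ l ^ α := Real.rpow_le_rpow (by positivity) (by linarith) hα0.le
    have th1 : th E hE z ≤ d / l := by
      unfold th
      rw [← hl, sub_le_iff_le_add, div_le_iff₀ hl0, add_mul, div_mul_cancel₀ _ hl0.ne']
      linarith
    have th2 : 1 - th E hE z' ≤ 2 * (d / l) := by
      unfold th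
      rw [hl']
      have : 1 - (rad E hE z' / (l / 2) - 1) = 2 * ((l - rad E hE z') / l) := by
        field_simp
        ring
      rw [this]
      gcongr
      linarith
    have e : off E hE φ α z - off E hE φ α z' =
        (psi E hE φ α l z - psi E hE φ α l z') +
        th E hE z • (psi E hE φ α (2 * l) z - psi E hE φ α l z) +
        (1 - th E hE z') • (psi E hE φ α l z' - psi E hE φ α (l / 2) z') := by
      unfold off
      rw [hl', e2, ← hl]
      module
    rw [e]
    calc ‖(psi E hE φ α l z - psi E hE φ α l z') +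
        th E hE z • (psi E hE φ α (2 * l) z - psi E hE φ α l z) +
        (1 - th E hE z') • (psi E hE φ α l z' - psi E hE φ α (l / 2) z')‖
        ≤ 4000 * (s * d ^ α) + (d / l) * (66 * l ^ α) + (2 * (d / l)) * (66 * l ^ α) := by
          refine (norm_add_le _ _).trans ?_
          refine add_le_add ((norm_add_le _ _).trans (add_le_add A1 ?_)) ?_
          · rw [norm_smul, Real.norm_eq_abs, abs_of_nonneg t0]
            exact mul_le_mul th1 A2 (norm_nonneg _) (by positivity)
          · rw [norm_smul, Real.norm_eq_abs, abs_of_nonneg (by linarith)]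
            refine mul_le_mul th2 (A3.trans ?_) (norm_nonneg _) (by positivity)
            gcongr
      _ = 4000 * (s * d ^ α) + 198 * (d / l * l ^ α) := by ring
      _ ≤ 4200 * (s * d ^ α) := by linarith

include hn hα hα1 hφ in
theorem ext_holder (z z' : M) :
    ‖ext E hE φ α z - ext E hE φ α z'‖ ≤
      5000 * ((n : ℝ) ^ (α - 1 / 2) * dist z z' ^ α) := by
  have hs1 : 1 ≤ (n : ℝ) ^ (α - 1 / 2) :=
    Real.one_le_rpow (by exact_mod_cast hn) (by linarith)
  have hda : 0 ≤ dist z z' ^ α := by positivity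
  have hsd : dist z z' ^ α ≤ (n : ℝ) ^ (α - 1 / 2) * dist z z' ^ α := by nlinarith
  by_cases hfar : rad E hE z ≤ 4 * dist z z' ∧ rad E hE z' ≤ 4 * dist z z'
  · have := ext_far hE hn hα hα1 hφ hfar.1 hfar.2
    linarith
  · have hpos : 0 ≤ dist z z' := dist_nonneg
    have r1 := rad_le_add hE z z'
    have r2 := rad_le_add hE z' z
    rw [dist_comm z' z] at r2
    have hbig : ¬ (rad E hE z ≤ dist z z') ∧ ¬ (rad E hE z' ≤ dist z z') := by
      rw [not_and_or, not_le, not_le] at hfar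
      rcases hfar with h | h
      · constructor <;> intro h' <;> linarith
      · constructor <;> intro h' <;> linarith
    have hz : z ∉ E := fun h => hbig.1 (by rw [rad_eq_zero hE h]; exact hpos)
    have hz' : z' ∉ E := fun h => hbig.2 (by rw [rad_eq_zero hE h]; exact hpos)
    rw [ext_of_not_mem hE hz, ext_of_not_mem hE hz']
    rcases le_total (rad E hE z') (rad E hE z) with hle | hle
    · have hd : dist z z' ≤ rad E hE z / 4 := by
        rw [not_and_or, not_le, not_le] at hfar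
        rcases hfar with h | h <;> linarith
      have := ext_near hE hn hα hα1 hφ hz hz' hd hle
      linarith
    · have hd : dist z' z ≤ rad E hE z' / 4 := by
        rw [dist_comm]
        rw [not_and_or, not_le, not_le] at hfar
        rcases hfar with h | h <;> linarith
      have h5 := ext_near hE hn hα hα1 hφ hz' hz hd hle
      rw [norm_sub_rev, dist_comm z' z] at h5
      linarith

end finite

end

end Pool.Agent.MPe08f0b
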