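import Pool.Agent.Lib.MP_e08f0b_an.Core

/-!
Quantitative estimates for the one-scale construction.
-/

set_option autoImplicit false

open scoped BigOperators
open Filter Topology

namespace Pool.Agent.MPe08f0b

noncomputable section

variable {n : ℕ} {X : Type*} [Fintype X] [Nonempty X]

lemma term_le {a : X → V n} {h : X → ℝ} (H : Adm a h) (x : X) (hx : h x ≤ 2) (c : V n)
    (k : Fin n → ℤ) :
    W a h k * Real.exp (n * Q (emb k - c)) ≤
      Real.exp (n * (10 + ‖a x - c‖) - n * 2 * ‖emb k - a x‖) := by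
  unfold W
  rw [← Real.exp_add]
  apply Real.exp_le_exp.mpr
  have h1 := le_D_of_adm H (emb k) x
  have h2 : Q (emb k - c) ≤ 1 + ‖emb k - a x‖ + ‖a x - c‖ := by
    refine (Q_le _).trans ?_
    have : ‖emb k - c‖ ≤ ‖emb k - a x‖ + ‖a x - c‖ := by
      calc ‖emb k - c‖ = ‖(emb k - a x) + (a x - c)‖ := by congr 1; abel
        _ ≤ _ := norm_add_le _ _
    linarith
  have hn0 : (0 : ℝ) ≤ n := Nat.cast_nonneg n
  have h3 : (n : ℝ) * (-(3 * D a h (emb k)) + Q (emb k - c)) ≤
      n * ((10 + ‖a x - c‖) - 2 * ‖emb k - a x‖) := by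
    apply mul_le_mul_of_nonneg_left _ hn0
    linarith
  linarith

lemma F_le (hn : 1 ≤ n) {a : X → V n} {h : X → ℝ} (H : Adm a h) (x : X) (hx : h x ≤ 2)
    (c : V n) : F a h c ≤ Real.exp (n * (12 + ‖a x - c‖)) := by
  unfold F
  calc ∑ k ∈ K a, W a h k * Real.exp (n * Q (emb k - c))
      ≤ ∑ k ∈ K a, Real.exp (n * (10 + ‖a x - c‖)) * Real.exp (-(n * 2 * ‖emb k - a x‖)) := by
        apply Finset.sum_le_sum
        intro k _
        rw [← Real.exp_add]
        exact term_le H x hx c k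
    _ = Real.exp (n * (10 + ‖a x - c‖)) * ∑ k ∈ K a, Real.exp (-(n * 2 * ‖emb k - a x‖)) := by
        rw [Finset.mul_sum]
    _ ≤ Real.exp (n * (10 + ‖a x - c‖)) * Real.exp (2 * n) := by
        apply mul_le_mul_of_nonneg_left _ (Real.exp_pos _).le
        exact sum_exp_lattice_le hn (K a) (a x) (by norm_num)
    _ = Real.exp (n * (12 + ‖a x - c‖)) := by
        rw [← Real.exp_add]
        congr 1
        ring

lemma F_ge (hn : 1 ≤ n) {a : X → V n} {h : X → ℝ} (x : X) (hx : h x ≤ 2) (c : V n) :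
    Real.exp (n * (-9 + Q (emb (rnd (a x)) - c))) ≤ F a h c := by
  refine le_trans ?_ (term_le_F a h c (mem_K a x))
  unfold W
  rw [← Real.exp_add]
  apply Real.exp_le_exp.mpr
  have h1 := D_le a h (emb (rnd (a x))) x
  have h2 := norm_emb_rnd_sub_le hn (a x)
  have hn0 : (0 : ℝ) ≤ n := Nat.cast_nonneg n
  have h3 : (n : ℝ) * (-9 + Q (emb (rnd (a x)) - c)) ≤
      n * (-(3 * D a h (emb (rnd (a x)))) + Q (emb (rnd (a x)) - c)) := by
    apply mul_le_mul_of_nonneg_left _ hn0
    linarith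
  linarith

lemma ctr_close (hn : 1 ≤ n) {a : X → V n} {h : X → ℝ} (H : Adm a h) (x : X) (hx : h x ≤ 2) :
    ‖ctr a h - a x‖ ≤ 22 := by
  have h1 := F_ge hn (a := a) (h := h) x hx (ctr a h)
  have h2 := ctr_min hn a h (a x)
  have h3 := F_le hn H x hx (a x)
  rw [sub_self, norm_zero, add_zero] at h3
  have h4 := Real.exp_le_exp.mp (h1.trans (h2.trans h3))
  have hn0 : (0 : ℝ) < n := by exact_mod_cast hn
  have h5 := le_of_mul_le_mul_left h4 hn0
  have h6 := norm_le_Q (emb (rnd (a x)) - ctr a h)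
  have h7 := norm_emb_rnd_sub_le hn (a x)
  calc ‖ctr a h - a x‖ = ‖(emb (rnd (a x)) - a x) - (emb (rnd (a x)) - ctr a h)‖ := by
        congr 1; abel
    _ ≤ ‖emb (rnd (a x)) - a x‖ + ‖emb (rnd (a x)) - ctr a h‖ := norm_sub_le _ _
    _ ≤ 22 := by linarith

lemma pr_tail (hn : 1 ≤ n) {a : X → V n} {h : X → ℝ} (H : Adm a h) (x : X) (hx : h x ≤ 2) :
    ∑ k ∈ (K a).filter (fun k => 43 ≤ ‖emb k - a x‖), pr a h k ≤ 1 / 2 := by
  have hn0 : (0 : ℝ) < n := by exact_mod_cast hn
  have hn1 : (1 : ℝ) ≤ n := by exact_mod_cast hn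
  have hF : Real.exp (n * (-8)) ≤ F a h (ctr a h) := by
    refine le_trans ?_ (F_ge hn x hx (ctr a h))
    apply Real.exp_le_exp.mpr
    apply mul_le_mul_of_nonneg_left _ hn0.le
    have := one_le_Q (emb (rnd (a x)) - ctr a h)
    linarith
  have hc := ctr_close hn H x hx
  rw [norm_sub_rev] at hc
  calc ∑ k ∈ (K a).filter (fun k => 43 ≤ ‖emb k - a x‖), pr a h k
      ≤ ∑ k ∈ (K a).filter (fun k => 43 ≤ ‖emb k - a x‖),
          Real.exp (n * (-3)) * Real.exp (-(n * 1 * ‖emb k - a x‖)) := by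
        apply Finset.sum_le_sum
        intro k hk
        rw [Finset.mem_filter] at hk
        unfold pr
        rw [div_le_iff₀ (F_pos _ _ _)]
        refine (term_le H x hx (ctr a h) k).trans ?_
        refine le_trans ?_ (mul_le_mul_of_nonneg_left hF (by positivity))
        rw [← Real.exp_add, ← Real.exp_add]
        apply Real.exp_le_exp.mpr
        have h1 : (n : ℝ) * ((10 + ‖a x - ctr a h‖) - 2 * ‖emb k - a x‖) ≤
            n * (-3 - ‖emb k - a x‖ - 8) := by
          apply mul_le_mul_of_nonneg_left _ hn0.le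
          linarith [hk.2]
        linarith
    _ ≤ ∑ k ∈ K a, Real.exp (n * (-3)) * Real.exp (-(n * 1 * ‖emb k - a x‖)) := by
        apply Finset.sum_le_sum_of_subset_of_nonneg (Finset.filter_subset _ _)
        intro k _ _
        positivity
    _ = Real.exp (n * (-3)) * ∑ k ∈ K a, Real.exp (-(n * 1 * ‖emb k - a x‖)) := by
        rw [Finset.mul_sum]
    _ ≤ Real.exp (n * (-3)) * Real.exp (2 * n) := by
        apply mul_le_mul_of_nonneg_left _ (Real.exp_pos _).le
        exact sum_exp_lattice_le hn (K a) (a x) le_rfl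
    _ = Real.exp (-n) := by
        rw [← Real.exp_add]
        congr 1
        ring
    _ ≤ Real.exp (-1) := Real.exp_le_exp.mpr (by linarith)
    _ ≤ 1 / 2 := by
        rw [Real.exp_neg, one_div]
        apply inv_anti₀ (by norm_num)
        have := Real.add_one_le_exp (1 : ℝ)
        linarith

lemma pr_mass (hn : 1 ≤ n) {a : X → V n} {h : X → ℝ} (H : Adm a h) (x : X) (hx : h x ≤ 2) :
    1 / 2 ≤ ∑ k ∈ (K a).filter (fun k => ¬ 43 ≤ ‖emb k - a x‖), pr a h k := by
  have h1 := Finset.sum_filter_add_sum_filter_not (K a) (fun k => 43 ≤ ‖emb k - a x‖) (pr a h)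
  rw [sum_pr] at h1
  have h2 := pr_tail hn H x hx
  linarith

lemma weight_ge (hn : 1 ≤ n) {a : X → V n} {h : X → ℝ} (H : Adm a h) (x : X) (hx : h x ≤ 2)
    {c' : V n} (hc' : ‖ctr a h - c'‖ ≤ 50) :
    1 / 2021184 ≤ ∑ k ∈ K a, pr a h k / (2 * Q (emb k - c') * Q (emb k - ctr a h) ^ 2) := by
  have hm := pr_mass hn H x hx
  have hc := ctr_close hn H x hx
  calc (1 : ℝ) / 2021184 = (1 / 2) * (1 / 1010592) := by norm_num
    _ ≤ (∑ k ∈ (K a).filter (fun k => ¬ 43 ≤ ‖emb k - a x‖), pr a h k) * (1 / 1010592) := by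
        apply mul_le_mul_of_nonneg_right hm (by norm_num)
    _ = ∑ k ∈ (K a).filter (fun k => ¬ 43 ≤ ‖emb k - a x‖), pr a h k * (1 / 1010592) := by
        rw [Finset.sum_mul]
    _ ≤ ∑ k ∈ (K a).filter (fun k => ¬ 43 ≤ ‖emb k - a x‖),
          pr a h k / (2 * Q (emb k - c') * Q (emb k - ctr a h) ^ 2) := by
        apply Finset.sum_le_sum
        intro k hk
        rw [Finset.mem_filter, not_le] at hk
        rw [div_eq_mul_one_div (pr a h k)]
        apply mul_le_mul_of_nonneg_left _ (pr_pos a h k).le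
        have q1 := Q_pos (emb k - c')
        have q2 := Q_pos (emb k - ctr a h)
        have n2 : ‖emb k - ctr a h‖ ≤ 65 := by
          calc ‖emb k - ctr a h‖ = ‖(emb k - a x) - (ctr a h - a x)‖ := by congr 1; abel
            _ ≤ ‖emb k - a x‖ + ‖ctr a h - a x‖ := norm_sub_le _ _
            _ ≤ 65 := by linarith [hk.2]
        have n1 : ‖emb k - c'‖ ≤ 115 := by
          calc ‖emb k - c'‖ = ‖(emb k - ctr a h) + (ctr a h - c')‖ := by congr 1; abel
            _ ≤ ‖emb k - ctr a h‖ + ‖ctr a h - c'‖ := norm_add_le _ _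
            _ ≤ 115 := by linarith
        have m1 := Q_le (emb k - c')
        have m2 := Q_le (emb k - ctr a h)
        apply one_div_le_one_div_of_le (by positivity)
        have m3 : Q (emb k - ctr a h) ^ 2 ≤ 66 ^ 2 := by
          apply pow_le_pow_left₀ q2.le
          linarith
        calc 2 * Q (emb k - c') * Q (emb k - ctr a h) ^ 2 ≤ 2 * 116 * 66 ^ 2 := by
              apply mul_le_mul _ m3 (by positivity) (by positivity)
              linarith
          _ = 1010592 := by norm_num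
    _ ≤ _ := by
        apply Finset.sum_le_sum_of_subset_of_nonneg (Finset.filter_subset _ _)
        intro k _ _
        have q1 := Q_pos (emb k - c')
        have q2 := Q_pos (emb k - ctr a h)
        have q3 := pr_pos a h k
        positivity

/-- The one-scale stability theorem. -/
theorem one_scale (hn : 1 ≤ n) {a : X → V n} {h h' : X → ℝ} (H : Adm a h) (H' : Adm a h')
    (x x' : X) (hx : h x ≤ 2) (hx' : h' x' ≤ 2) {ρ : ℝ} (hρ0 : 0 ≤ ρ) (hρ1 : ρ ≤ 1)
    (hd : ∀ y, |h y - h' y| ≤ ρ) :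
    ‖ctr a h - ctr a h'‖ ^ 2 ≤ 4000 ^ 2 * ρ ∧ ‖ctr a h - ctr a h'‖ ^ 2 ≤ 4000 ^ 2 * (n * ρ ^ 2) := by
  have hn0 : (0 : ℝ) < n := by exact_mod_cast hn
  have c1 := ctr_close hn H x hx
  have c2 := ctr_close hn H' x' hx'
  have c3 : ‖a x - a x'‖ ≤ 6 := by
    have h1 := H x x'
    have h2 := abs_le.mp (hd x')
    linarith [h2.2]
  have c4 : ‖ctr a h - ctr a h'‖ ≤ 50 := by
    calc ‖ctr a h - ctr a h'‖ = ‖((ctr a h - a x) + (a x - a x')) - (ctr a h' - a x')‖ := by
          congr 1; abel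
      _ ≤ ‖(ctr a h - a x) + (a x - a x')‖ + ‖ctr a h' - a x'‖ := norm_sub_le _ _
      _ ≤ ‖ctr a h - a x‖ + ‖a x - a x'‖ + ‖ctr a h' - a x'‖ := by
          gcongr
          exact norm_add_le _ _
      _ ≤ 50 := by linarith
  have w := weight_ge hn H x hx c4
  have st := stability hn a h h' hd
  have kl := kl_ineq (K a) (pr a h) (pr a h') (fun k _ => pr_pos a h k)
    (fun k _ => pr_pos a h' k) (sum_pr a h) (sum_pr a h')
  set T := ∑ k ∈ K a, |pr a h' k - pr a h k| with hT
  set S := ∑ k ∈ K a, (pr a h' k - pr a h k) * (Real.log (pr a h' k) - Real.log (pr a h k))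
    with hS
  set w0 := ∑ k ∈ K a, pr a h k / (2 * Q (emb k - ctr a h') * Q (emb k - ctr a h) ^ 2) with hw0
  have hT0 : 0 ≤ T := Finset.sum_nonneg (fun k _ => abs_nonneg _)
  have hT2 : T ≤ 2 := by
    have : T ≤ ∑ k ∈ K a, (pr a h' k + pr a h k) := by
      apply Finset.sum_le_sum
      intro k _
      have p1 := pr_pos a h' k
      have p2 := pr_pos a h k
      rw [abs_le]
      constructor <;> linarith
    rw [Finset.sum_add_distrib, sum_pr, sum_pr] at this
    linarith
  set N := ‖ctr a h - ctr a h'‖ ^ 2 with hN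
  have hN0 : 0 ≤ N := sq_nonneg _
  have m1 : n * N * (1 / 2021184) ≤ n * N * w0 := by
    apply mul_le_mul_of_nonneg_left w (by positivity)
  have m2 : n * N * (1 / 2021184) ≤ 3 * n * ρ * T - T ^ 2 / 2 := by linarith
  constructor
  · have m3 : n * N * (1 / 2021184) ≤ n * (6 * ρ) := by
      have : 3 * n * ρ * T ≤ 3 * n * ρ * 2 := mul_le_mul_of_nonneg_left hT2 (by positivity)
      nlinarith [sq_nonneg T]
    have m4 : n * (N * (1 / 2021184)) ≤ n * (6 * ρ) := by linarith
    have m5 := le_of_mul_le_mul_left m4 hn0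
    linarith
  · have m3 : n * N * (1 / 2021184) ≤ n * (9 / 2 * (n * ρ ^ 2)) := by
      nlinarith [sq_nonneg (T - 3 * n * ρ)]
    have m4 : n * (N * (1 / 2021184)) ≤ n * (9 / 2 * (n * ρ ^ 2)) := by linarith
    have m5 := le_of_mul_le_mul_left m4 hn0
    have : 0 ≤ n * ρ ^ 2 := by positivity
    linarith

end

end Pool.Agent.MPe08f0b
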